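import Pool.Agent.X190.ZStar

/-! Extensions of simple `Z*`-algebras by `Z*`-algebras are `Z*`-algebras. -/

set_option autoImplicit false

namespace Pool.Agent.Results.MP_6f16c7_an.ExtensionsAreZStar

open Filter Topology Pool.Agent.X190.ZStar

universe u v w

section

variable {C : Type w} [NonUnitalCStarAlgebra C] (b : C)

/-- finite sums of products `x b y` -/
def S : AddSubgroup C := AddSubgroup.closure {z | ∃ x y, z = x * b * y}

theorem S_mul_left (x : C) {z : C} (hz : z ∈ S b) : x * z ∈ S b := by
  induction hz using AddSubgroup.closure_induction with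
  | mem z hz =>
    obtain ⟨p, q, rfl⟩ := hz
    exact AddSubgroup.subset_closure ⟨x * p, q, by simp only [mul_assoc]⟩
  | zero => rw [mul_zero]; exact zero_mem _
  | add p q _ _ hp hq => rw [mul_add]; exact add_mem hp hq
  | neg p _ hp => rw [mul_neg]; exact neg_mem hp

theorem S_mul_right (x : C) {z : C} (hz : z ∈ S b) : z * x ∈ S b := by
  induction hz using AddSubgroup.closure_induction with
  | mem z hz =>
    obtain ⟨p, q, rfl⟩ := hz
    exact AddSubgroup.subset_closure ⟨p, q * x, by simp only [mul_assoc]⟩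
  | zero => rw [zero_mul]; exact zero_mem _
  | add p q _ _ hp hq => rw [add_mul]; exact add_mem hp hq
  | neg p _ hp => rw [neg_mul]; exact neg_mem hp

/-- the closed ideal generated by the products `x b y` -/
def clI : TwoSidedIdeal C :=
  TwoSidedIdeal.mk' ((S b).topologicalClosure : Set C) (zero_mem _) (fun hx hy => add_mem hx hy)
    (fun hx => neg_mem hx)
    (by
      intro x y hy
      have h : Set.MapsTo (fun z => x * z) (S b : Set C) (S b : Set C) := fun z hz => S_mul_left b x hz
      exact h.closure (continuous_const.mul continuous_id) hy)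
    (by
      intro x y hx
      have h : Set.MapsTo (fun z => z * y) (S b : Set C) (S b : Set C) := fun z hz => S_mul_right b y hz
      exact h.closure (continuous_id.mul continuous_const) hx)

theorem mem_clI (z : C) : z ∈ clI b ↔ z ∈ closure (S b : Set C) := TwoSidedIdeal.mem_mk' _ _ _ _ _ _ _

theorem dense_S (hC : IsSimpleCStar C) (hb : b ≠ 0) (hbs : star b = b) (z : C) :
    z ∈ closure (S b : Set C) := by
  have hcl : IsClosed (clI b : Set C) := by
    have : (clI b : Set C) = closure (S b : Set C) := by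
      ext z; exact mem_clI b z
    rw [this]; exact isClosed_closure
  rcases hC.2 _ hcl with h | h
  · exfalso
    have h1 : b * b * b ∈ clI b := (mem_clI b _).2 (subset_closure (AddSubgroup.subset_closure ⟨b, b, rfl⟩))
    rw [h] at h1
    have h2 : b * b * b = 0 := by simpa using h1
    -- `b^3 = 0` for a self-adjoint element forces `b = 0`
    have h3 : star (b * b) * (b * b) = 0 := by
      rw [star_mul, hbs, ← mul_assoc, h2, zero_mul]
    have h4 : b * b = 0 := (CStarRing.star_mul_self_eq_zero_iff _).1 h3
    have h5 : star b * b = 0 := by rw [hbs, h4]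
    exact hb ((CStarRing.star_mul_self_eq_zero_iff _).1 h5)
  · rw [← mem_clI, h]; trivial

end

/-- Let `0 → B → A → C → 0` be an exact sequence of C*-algebras and `*`-homomorphisms, where `B`
is a `Z*`-algebra and `C` is a simple `Z*`-algebra. Then `A` is a `Z*`-algebra. -/
theorem result (A : Type u) (B : Type v) (C : Type w) [NonUnitalCStarAlgebra A]
    [NonUnitalCStarAlgebra B] [NonUnitalCStarAlgebra C] (i : B →⋆ₙₐ[ℂ] A) (p : A →⋆ₙₐ[ℂ] C)
    (hi : Function.Injective i) (hp : Function.Surjective p)
    (hex : ∀ a : A, p a = 0 ↔ ∃ b, i b = a) (hB : IsZStar B) (hC : IsZStar C)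
    (hCs : IsSimpleCStar C) : IsZStar A := by
  rintro a ⟨y0, ha0⟩
  by_contra hnz
  have has : star a = a := by rw [ha0, star_mul, star_star]
  -- an annihilator in the quotient
  obtain ⟨b, hb, hbs, hab⟩ : ∃ b : C, b ≠ 0 ∧ star b = b ∧ p a * b = 0 := by
    obtain ⟨d, hd, h⟩ := hC (p a) ⟨p y0, by rw [ha0, map_mul, map_star]⟩
    have hpas : star (p a) = p a := by rw [← map_star, has]
    rcases h with h | h
    · refine ⟨d * star d, ?_, by rw [star_mul, star_star], by rw [← mul_assoc, h, zero_mul]⟩
      intro h'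
      exact hd ((CStarRing.mul_star_self_eq_zero_iff _).1 h')
    · refine ⟨star d * d, ?_, by rw [star_mul, star_star], ?_⟩
      · intro h'
        exact hd ((CStarRing.star_mul_self_eq_zero_iff _).1 h')
      · have : p a * star d = 0 := by
          have := congrArg star h
          rwa [star_mul, hpas, star_zero] at this
        rw [← mul_assoc, this, zero_mul]
  obtain ⟨b', hb'⟩ := hp b
  -- lifting elements of `S b`
  have hlift : ∀ s ∈ S b, ∃ (z : A) (Y : Finset A), p z = s ∧
      ∀ x : A, (∀ y ∈ Y, b' * y * x = 0) → z * x = 0 := by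
    classical
    intro s hs
    induction hs using AddSubgroup.closure_induction with
    | mem s hs =>
      obtain ⟨x, y, rfl⟩ := hs
      obtain ⟨x', rfl⟩ := hp x
      obtain ⟨y', rfl⟩ := hp y
      refine ⟨x' * b' * y', {y'}, by rw [map_mul, map_mul, hb'], fun x hx => ?_⟩
      have := hx y' (Finset.mem_singleton_self _)
      calc x' * b' * y' * x = x' * (b' * y' * x) := by simp only [mul_assoc]
        _ = 0 := by rw [this, mul_zero]
    | zero => exact ⟨0, ∅, map_zero p, fun x _ => zero_mul x⟩
    | add s t _ _ hs ht =>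
      obtain ⟨z, Y, h1, h2⟩ := hs
      obtain ⟨z', Y', h1', h2'⟩ := ht
      refine ⟨z + z', Y ∪ Y', by rw [map_add, h1, h1'], fun x hx => ?_⟩
      rw [add_mul, h2 x fun y hy => hx y (Finset.mem_union_left _ hy),
        h2' x fun y hy => hx y (Finset.mem_union_right _ hy), add_zero]
    | neg s _ hs =>
      obtain ⟨z, Y, h1, h2⟩ := hs
      refine ⟨-z, Y, ?_, fun x hx => by rw [neg_mul, h2 x hx, neg_zero]⟩
      have h3 : p (-z) = - p z := by
        have := map_smul p (-1 : ℂ) z
        simpa using this
      rw [h3, h1]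
  -- approximate `p a`
  have hseq : ∀ n : ℕ, ∃ s ∈ S b, ‖p a - s‖ < 1 / ((n : ℝ) + 1) := by
    intro n
    obtain ⟨s, hs, h⟩ := Metric.mem_closure_iff.1 (dense_S b hCs hb hbs (p a)) (1 / ((n : ℝ) + 1))
      (by positivity)
    exact ⟨s, hs, by rwa [dist_eq_norm] at h⟩
  choose s hsS hsn using hseq
  choose! z Y hz hY using hlift
  -- bounded lifts
  let pc : A →L[ℂ] C := LinearMap.mkContinuous
    ({ toFun := p, map_add' := map_add p, map_smul' := fun r x => map_smul p r x } : A →ₗ[ℂ] C) 1
    (fun x => by simpa using NonUnitalStarAlgHom.norm_apply_le p x)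
  obtain ⟨K, hK, hlb⟩ := pc.exists_preimage_norm_le hp
  have hlb' : ∀ c : C, ∃ e : A, p e = c ∧ ‖e‖ ≤ K * ‖c‖ := hlb
  choose e he hen using fun n => hlb' (p a - s n)
  have hj : ∀ n, ∃ d : B, i d = a - z (s n) - e n := by
    intro n
    rw [← hex]
    rw [map_sub, map_sub, hz (s n) (hsS n), he n]
    abel
  choose j hj using hj
  have hay : ∀ n, ∀ y ∈ Y (s n), ∃ d : B, i d = a * (b' * y) := by
    intro n y _
    rw [← hex, map_mul, map_mul, hb', ← mul_assoc, hab, zero_mul]
  -- the countable family
  have hcount : ((Set.range j) ∪ ⋃ n, ⋃ y ∈ Y (s n), {d : B | i d = a * (b' * y)}).Countable := by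
    refine (Set.countable_range j).union (Set.countable_iUnion fun n => ?_)
    refine ((Y (s n)).countable_toSet).biUnion fun y _ => ?_
    refine Set.Subsingleton.countable ?_
    intro d hd d' hd'
    apply hi
    rw [Set.mem_ofPred_eq] at hd hd'
    rw [hd, hd']
  obtain ⟨x, hx, hxann⟩ := common_annihilator' hB hcount
  have hix : i x ≠ 0 := fun h => hx (hi (by rw [h, map_zero]))
  apply hix
  apply not_zd hnz
  -- `a x = 0`
  have h1 : ∀ n, a * i x = e n * i x := by
    intro n
    have hzx : z (s n) * i x = 0 := by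
      apply hY (s n) (hsS n)
      intro y hy
      apply not_zd hnz
      obtain ⟨d, hd⟩ := hay n y hy
      have hdx : d * x = 0 := by
        apply hxann
        refine Or.inr (Set.mem_iUnion.2 ⟨n, Set.mem_iUnion₂.2 ⟨y, hy, hd⟩⟩)
      have := congrArg i hdx
      rw [map_mul, map_zero, hd] at this
      simpa only [mul_assoc] using this
    have hjx : i (j n) * i x = 0 := by
      rw [← map_mul, hxann (j n) (Or.inl ⟨n, rfl⟩), map_zero]
    have e1 : a = z (s n) + i (j n) + e n := by rw [hj]; abel
    calc a * i x = (z (s n) + i (j n) + e n) * i x := by rw [← e1]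
      _ = e n * i x := by rw [add_mul, add_mul, hzx, hjx, zero_add, zero_add]
  have h2 : Tendsto (fun n : ℕ => K * (1 / ((n : ℝ) + 1)) * ‖i x‖) atTop (𝓝 0) := by
    have := (tendsto_one_div_add_atTop_nhds_zero_nat (𝕜 := ℝ)).const_mul K |>.mul_const ‖i x‖
    simpa using this
  have h3 : ‖a * i x‖ ≤ 0 := by
    refine ge_of_tendsto h2 (Eventually.of_forall fun n => ?_)
    rw [h1 n]
    calc ‖e n * i x‖ ≤ ‖e n‖ * ‖i x‖ := norm_mul_le _ _
      _ ≤ (K * (1 / ((n : ℝ) + 1))) * ‖i x‖ := by
          refine mul_le_mul_of_nonneg_right ?_ (norm_nonneg _)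
          exact (hen n).trans (mul_le_mul_of_nonneg_left (hsn n).le hK.le)
  exact norm_le_zero_iff.1 h3

end Pool.Agent.Results.MP_6f16c7_an.ExtensionsAreZStar
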